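import Mathlib
import Pool.Agent.N290.RK.Stm

/-!
# Project RL: one arbitrary function in the corona problem on the ball, area integral bounds:
statements of the parts
-/

set_option autoImplicit false

open Complex MeasureTheory Set Filter Topology
open scoped ENNReal

namespace Pool.Agent.N290.RL

open Pool.Agent.N290.RJ Pool.Agent.N290.RK

variable {d : ℕ}

/-- slowly varying weights on the ball -/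
structure AW (a : E d → ℝ) : Prop where
  a1 : ContDiffOn ℝ 1 a (B d)
  a2 : ∀ z ∈ B d, 0 < a z ∧ a z ≤ 1
  a3 : ∀ z ∈ B d, ∀ ξ, |fderiv ℝ a z ξ| ≤ 1 / 256 * (a z * len z ξ)

/-- the ratio `((1 - |z|) / (1 - rad j |z|)) ^ (1/16)` -/
noncomputable def ww (z : E d) (j : ℕ) : ℝ := ((1 - nm z) / (1 - rad j * nm z)) ^ (1 / 16 : ℝ)

/-- the differential of `f (rad j • z)` -/
noncomputable def xj (f : E d → ℂ) (j : ℕ) (z ξ : E d) : ℂ := fderiv ℂ f (rad j • z) (rad j • ξ)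

/-- slowly varying weights along rays -/
def RAY (d : ℕ) : Prop := ∀ a : E d → ℝ, AW a → ∀ z ∈ B d, ∀ t t' : ℝ, 0 ≤ t → t ≤ t' → t' ≤ 1 →
  a (t • z) ≤ a (t' • z) * ((1 - t * nm z) / (1 - t' * nm z)) ^ (1 / 256 : ℝ) ∧
  a (t' • z) ≤ a (t • z) * ((1 - t * nm z) / (1 - t' * nm z)) ^ (1 / 256 : ℝ)

/-- the data of the construction -/
structure DatG (d : ℕ) (A L ε₂ : ℝ) (φ χ : ℂ → ℝ) (a : E d → ℝ) (f : E d → ℂ) : Prop where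
  hL : 1 ≤ L
  hA : 1024 * L ≤ A
  aw : AW a
  φ1 : ContDiff ℝ 2 φ
  φ2 : ∀ w, 0 ≤ φ w ∧ φ w ≤ 1
  φ3 : ∀ w, ‖fderiv ℝ φ w‖ ≤ L
  φ4 : ∀ w, ‖fderiv ℝ (fderiv ℝ φ) w‖ ≤ L
  φ5 : ∀ w, ε₂ ≤ ‖w‖ → φ w = 0
  χ1 : ContDiff ℝ 2 χ
  χ2 : ∀ w, 0 ≤ χ w ∧ χ w ≤ 1
  χ3 : ∀ w, ‖fderiv ℝ χ w‖ ≤ L
  χ5 : ∀ w, ‖w‖ ≤ ε₂ → χ w = 1
  f1 : DifferentiableOn ℂ f (B d)
  f2 : ∀ z ∈ B d, ‖f z‖ ≤ 1
  f3 : ∀ z ∈ B d, ∀ ξ, ‖fderiv ℂ f z ξ‖ ≤ a z * len z ξ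

/-- the weight at `rad j • z` -/
noncomputable def al (A : ℝ) (a : E d → ℝ) (j : ℕ) (z : E d) : ℝ := A * a (rad j • z)

/-- `λ_j` -/
noncomputable def lj (φ : ℂ → ℝ) (A : ℝ) (a : E d → ℝ) (f : E d → ℂ) (j : ℕ) (z : E d) : ℝ :=
  lam φ (f (rad j • z)) (al A a j z)

/-- `p_j` -/
noncomputable def pj (φ : ℂ → ℝ) (A : ℝ) (a : E d → ℝ) (f : E d → ℂ) (j : ℕ) (z : E d) : ℂ :=
  pp φ (f (rad j • z)) (al A a j z)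

/-- the phase `S_j` -/
noncomputable def Sj (φ : ℂ → ℝ) (A : ℝ) (a : E d → ℝ) (f : E d → ℂ) : ℕ → E d → ℝ
  | 0 => fun _ => 0
  | j + 1 => fun z => Sj φ A a f j z + 2 * (pj φ A a f j z * (f (rad (j + 1) • z) -
      f (rad j • z))).im

/-- the functions `X_j = λ_j χ(F_j) exp(i S_j)` -/
noncomputable def Xj (φ χ : ℂ → ℝ) (A : ℝ) (a : E d → ℝ) (f : E d → ℂ) (j : ℕ) (z : E d) : ℂ :=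
  (lj φ A a f j z : ℂ) * (χ (f (rad j • z)) : ℂ) * exp (I * (Sj φ A a f j z : ℂ))

/-- the functions `P_j = 4 φ(F_j) conj(φ_w(F_j)) exp(-i S_j)` -/
noncomputable def Pj (φ : ℂ → ℝ) (A : ℝ) (a : E d → ℝ) (f : E d → ℂ) (j : ℕ) (z : E d) : ℂ :=
  4 * (φ (f (rad j • z)) : ℂ) * starRingEnd ℂ (dw φ (f (rad j • z))) *
    exp (-(I * (Sj φ A a f j z : ℂ)))

/-- the numbers `s` and `w` -/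
def YN (d : ℕ) : Prop := ∀ z ∈ B d, ∀ j : ℕ, 0 ≤ st j z ∧ st j z ≤ 1 ∧ 0 < ww z j ∧ ww z j ≤ 1 ∧
  ww z (j + 1) ^ 16 = ww z j ^ 16 * (1 + st j z) ∧ ww z (j + 1) ≤ 2 * ww z j ∧
  (∀ m : ℕ, 0 < m → ww z j ^ m * (1 + st j z / 32) ≤ ww z (j + 1) ^ m) ∧
  ∀ ξ, len (rad j • z) (rad j • ξ) ≤ 3 / 2 * ww z j ^ 8 * len z ξ

/-- estimates of the weight -/
def YA (d : ℕ) : Prop := ∀ (A : ℝ) (a : E d → ℝ), 1 ≤ A → AW a → ∀ j : ℕ,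
  ContDiffOn ℝ 1 (al A a j) (B d) ∧ ∀ z ∈ B d, 0 < al A a j z ∧ al A a j z ≤ A ∧
    A * a z * ww z j ≤ al A a j z ∧ al A a j z ≤ A * (a z / ww z j) ∧
    al A a (j + 1) z ≤ (1 + st j z / 256) * al A a j z ∧
    al A a j z ≤ (1 + st j z / 256) * al A a (j + 1) z ∧
    |al A a (j + 1) z - al A a j z| ≤ A * (a z / ww z j) * st j z ∧
    ∀ ξ, |fderiv ℝ (al A a j) z ξ| ≤ 2 * A * a z * ww z j ^ 7 * len z ξ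

/-- estimates of `f (rad j • z)` -/
def YF (d : ℕ) : Prop := ∀ (a : E d → ℝ) (f : E d → ℂ), AW a → DifferentiableOn ℂ f (B d) →
  (∀ z ∈ B d, ∀ ξ, ‖fderiv ℂ f z ξ‖ ≤ a z * len z ξ) → ∀ j : ℕ, ∀ z ∈ B d,
    ‖f (rad (j + 1) • z) - f (rad j • z)‖ ≤ 2 * a (rad j • z) * st j z ∧
    ‖f (rad (j + 1) • z) - f (rad j • z)‖ ≤ 2 * (a z / ww z j) * st j z ∧
    ‖f (rad (j + 1) • z) - f (rad j • z)‖ ≤ st j z ∧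
    ∀ ξ, ‖xj f j z ξ‖ ≤ 3 / 2 * a z * ww z j ^ 7 * len z ξ ∧
      fderiv ℝ (fun w => f (rad j • w)) z ξ = xj f j z ξ ∧
      db (fun w => f (rad j • w)) z ξ = 0 ∧
      db (fun w => starRingEnd ℂ (f (rad j • w))) z ξ = starRingEnd ℂ (xj f j z ξ)

/-- estimates of `λ_j` and `p_j` -/
def YP (d : ℕ) : Prop := ∀ A L : ℝ, ∃ C₁ : ℝ, 0 < C₁ ∧ ∀ (ε₂ : ℝ) (φ χ : ℂ → ℝ)
  (a : E d → ℝ) (f : E d → ℂ), DatG d A L ε₂ φ χ a f → ∀ j : ℕ,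
  ContDiffOn ℝ 1 (pj φ A a f j) (B d) ∧ ContDiffOn ℝ 1 (lj φ A a f j) (B d) ∧ ∀ z ∈ B d,
    0 < lj φ A a f j z ∧ lj φ A a f j z ≤ C₁ ∧
    lj φ A a f (j + 1) z ≤ (1 + st j z / 64) * lj φ A a f j z ∧
    |lj φ A a f (j + 1) z - lj φ A a f j z| ≤ C₁ * (a z / ww z j) * st j z ∧
    lj φ A a f (j + 1) z * ‖pj φ A a f (j + 1) z - pj φ A a f j z‖ ≤
      C₁ * (a z / ww z j) * st j z ∧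
    ∀ ξ, lj φ A a f j z * ‖fderiv ℝ (pj φ A a f j) z ξ‖ ≤
        C₁ * a z * ww z j ^ 7 * len z ξ ∧
      ‖db (fun w => (lj φ A a f j w : ℂ)) z ξ -
        (lj φ A a f j z : ℂ) * starRingEnd ℂ (pj φ A a f j z * xj f j z ξ)‖ ≤
        C₁ * a z ^ 2 * ww z j ^ 6 * len z ξ

/-- estimates of the phase -/
def YS (d : ℕ) : Prop := ∀ A L : ℝ, ∃ C₂ : ℝ, 0 < C₂ ∧ ∀ (ε₂ : ℝ) (φ χ : ℂ → ℝ)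
  (a : E d → ℝ) (f : E d → ℂ), DatG d A L ε₂ φ χ a f → ∀ j : ℕ,
  ContDiffOn ℝ 1 (Sj φ A a f j) (B d) ∧ ∀ z ∈ B d, ∀ ξ,
    lj φ A a f j z * ‖db (fun w => (Sj φ A a f j w : ℂ)) z ξ -
      I * starRingEnd ℂ (pj φ A a f j z * xj f j z ξ)‖ ≤
      C₂ * a z ^ 2 * ww z j ^ 4 * len z ξ

/-- estimates of `X_j` -/
def YX (d : ℕ) : Prop := ∀ A L : ℝ, ∃ C₃ : ℝ, 0 < C₃ ∧ ∀ (ε₂ : ℝ) (φ χ : ℂ → ℝ)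
  (a : E d → ℝ) (f : E d → ℂ), DatG d A L ε₂ φ χ a f → ∀ j : ℕ,
  ContDiffOn ℝ 1 (Xj φ χ A a f j) (B d) ∧ ∀ z ∈ B d, ‖Xj φ χ A a f j z‖ ≤ C₃ ∧
    ‖Xj φ χ A a f (j + 1) z - Xj φ χ A a f j z‖ ≤ C₃ * a z * (st j z / ww z j) ∧ ∀ ξ,
    ‖db (Xj φ χ A a f j) z ξ‖ ≤ C₃ * a z ^ 2 * ww z j ^ 4 * len z ξ ∧
    ‖db (fun w => starRingEnd ℂ (Xj φ χ A a f j w)) z ξ -
      Pj φ A a f j z * starRingEnd ℂ (xj f j z ξ)‖ ≤ C₃ * a z ^ 2 * ww z j ^ 4 * len z ξ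

/-- estimates of `P_j` -/
def YQ (d : ℕ) : Prop := ∀ A L : ℝ, ∃ C₃ : ℝ, 0 < C₃ ∧ ∀ (ε₂ : ℝ) (φ χ : ℂ → ℝ)
  (a : E d → ℝ) (f : E d → ℂ), DatG d A L ε₂ φ χ a f → ∀ j : ℕ,
  ContDiffOn ℝ 1 (Pj φ A a f j) (B d) ∧ ∀ z ∈ B d, ‖Pj φ A a f j z‖ ≤ C₃ ∧
    ‖Pj φ A a f (j + 1) z - Pj φ A a f j z‖ ≤ C₃ * a z * (st j z / ww z j) ∧
    ∀ ξ, ‖fderiv ℝ (Pj φ A a f j) z ξ‖ ≤ C₃ * a z * ww z j ^ 3 * len z ξ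

/-- **functions with prescribed modulus, general weights** -/
def XG (d : ℕ) : Prop := ∀ ε₁ ε₃ : ℝ, 0 < ε₁ → ε₁ < ε₃ → ∃ C : ℝ, 0 < C ∧
  ∀ (f : E d → ℂ) (a : E d → ℝ), DifferentiableOn ℂ f (B d) → (∀ z ∈ B d, ‖f z‖ ≤ 1) → AW a →
  (∀ z ∈ B d, ∀ ξ, ‖fderiv ℂ f z ξ‖ ≤ a z * len z ξ) →
  ∃ X P : ℕ → E d → ℂ, ∀ k, ContDiffOn ℝ 1 (X k) (B d) ∧ ContDiffOn ℝ 1 (P k) (B d) ∧
    ∀ z ∈ B d, ‖X k z‖ ≤ C ∧ ‖P k z‖ ≤ C ∧ (ε₃ ≤ ‖f (rad k • z)‖ → X k z = 0) ∧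
      (‖f (rad k • z)‖ ≤ ε₁ → 1 ≤ ‖X k z‖) ∧
      ‖X (k + 1) z - X k z‖ ≤ C * a z * (st k z / ww z k) ∧
      ‖P (k + 1) z - P k z‖ ≤ C * a z * (st k z / ww z k) ∧ ∀ ξ,
      ‖db (X k) z ξ‖ ≤ C * a z ^ 2 * len z ξ ∧
      ‖db (fun w => starRingEnd ℂ (X k w)) z ξ - P k z * starRingEnd ℂ (xj f k z ξ)‖ ≤
        C * a z ^ 2 * len z ξ ∧
      ‖fderiv ℝ (X k) z ξ‖ ≤ C * a z * ww z k ^ 3 * len z ξ ∧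
      ‖fderiv ℝ (P k) z ξ‖ ≤ C * a z * ww z k ^ 3 * len z ξ

/-- **the bounded recursion, general weights and sequences** -/
def SG (d : ℕ) : Prop := ∀ C₁ : ℝ, 0 < C₁ → ∃ C₂ : ℝ, 0 < C₂ ∧
  ∀ (f : E d → ℂ) (a : E d → ℝ) (Ψ : ℕ → E d → ℂ), DifferentiableOn ℂ f (B d) →
  (∀ z ∈ B d, ‖f z‖ ≤ 1) → AW a → (∀ z ∈ B d, ∀ ξ, ‖fderiv ℂ f z ξ‖ ≤ a z * len z ξ) →
  (∀ k, ContDiffOn ℝ 1 (Ψ k) (B d)) →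
  (∀ k, ∀ z ∈ B d, ‖Ψ k z‖ ≤ C₁ ∧
    ‖Ψ (k + 1) z - Ψ k z‖ ≤ C₁ * a z * (st k z / ww z k) ∧
    ∀ ξ, ‖fderiv ℝ (Ψ k) z ξ‖ ≤ C₁ * a z * ww z k ^ 3 * len z ξ) →
  ∀ k, ∃ v : E d → ℂ, ContDiffOn ℝ 1 v (B d) ∧ ∀ z ∈ B d, ‖v z‖ ≤ C₂ ∧ ∀ ξ,
    ‖db v z ξ - Ψ k z * starRingEnd ℂ (xj f k z ξ)‖ ≤ C₂ * a z ^ 2 * len z ξ

/-- **smooth solutions for dilated data** -/
def SM (d : ℕ) : Prop := ∀ δ : ℝ, 0 < δ → ∃ C : ℝ, 0 < C ∧ ∀ (f G : E d → ℂ) (a : E d → ℝ),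
  DifferentiableOn ℂ f (B d) → DifferentiableOn ℂ G (B d) → (∀ z ∈ B d, ‖f z‖ ≤ 1) →
  (∀ z ∈ B d, ‖G z‖ ≤ 1) → (∀ z ∈ B d, δ ≤ ‖f z‖ + ‖G z‖) → AW a →
  (∀ z ∈ B d, ∀ ξ, ‖fderiv ℂ f z ξ‖ ≤ a z * len z ξ) →
  ∀ k : ℕ, ∃ g h : E d → ℂ, ContDiffOn ℝ 1 g (B d) ∧ ContDiffOn ℝ 1 h (B d) ∧ ∀ z ∈ B d,
    ‖g z‖ ≤ C ∧ ‖h z‖ ≤ C ∧ f (rad k • z) * g z + G (rad k • z) * h z = 1 ∧
    ∀ ξ, ‖db g z ξ‖ ≤ C * a z ^ 2 * len z ξ ∧ ‖db h z ξ‖ ≤ C * a z ^ 2 * len z ξ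

/-- **the main theorem**: one arbitrary function, bounds by the area integral of the other -/
def AI (d : ℕ) : Prop := ∀ δ : ℝ, 0 < δ → ∃ C : ℝ, 0 < C ∧ ∀ (f G : E d → ℂ) (a : E d → ℝ),
  DifferentiableOn ℂ f (B d) → DifferentiableOn ℂ G (B d) → (∀ z ∈ B d, ‖f z‖ ≤ 1) →
  (∀ z ∈ B d, ‖G z‖ ≤ 1) → (∀ z ∈ B d, δ ≤ ‖f z‖ + ‖G z‖) → AW a →
  (∀ z ∈ B d, ∀ ξ, ‖fderiv ℂ f z ξ‖ ≤ a z * len z ξ) →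
  ∃ g h : E d → ℂ, DifferentiableOn ℂ g (B d) ∧ DifferentiableOn ℂ h (B d) ∧ ∀ z ∈ B d,
    f z * g z + G z * h z = 1 ∧
    ENNReal.ofReal ‖g z‖ ≤ ENNReal.ofReal C *
      (1 + ∫⁻ w in B d, ENNReal.ofReal (a w ^ 2 * ker z w)) ∧
    ENNReal.ofReal ‖h z‖ ≤ ENNReal.ofReal C *
      (1 + ∫⁻ w in B d, ENNReal.ofReal (a w ^ 2 * ker z w))

end Pool.Agent.N290.RL
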