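import Mathlib
import Pool.Agent.N290.RL.Stm
import Pool.Agent.N290.RK.All
import Pool.Agent.N293.RL.YN
import Pool.Agent.N99.RL.Ray
import Pool.Agent.N283.RL.YA
import Pool.Agent.N453.RL.YF
import Pool.Agent.N300.RL.YP
import Pool.Agent.N7.RL.YS
import Pool.Agent.N252.RL.YX
import Pool.Agent.N707.RL.YQ
import Pool.Agent.N262.RL.XG
import Pool.Agent.N617.RL.SG
import Pool.Agent.N669.RL.SM
import Pool.Agent.N727.RL.AI

/-!
# Project RL: all parts put together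
-/

set_option autoImplicit false

namespace Pool.Agent.N290.RL

open Pool.Agent.N290.RJ

theorem c_YN (d : ℕ) : YN d := Pool.Agent.N293.RL.YN_of d (a_S2 d)

theorem c_RAY (d : ℕ) : RAY d := Pool.Agent.N99.RL.RAY_of d (a_S2 d)

theorem c_YA (d : ℕ) : YA d := Pool.Agent.N283.RL.YA_of d (c_RAY d) (c_YN d)

theorem c_YF (d : ℕ) : YF d := Pool.Agent.N453.RL.YF_of d (c_RAY d) (c_YN d)

theorem c_YP (d : ℕ) : YP d := Pool.Agent.N300.RL.YP_of d Pool.Agent.N427.RK.R3a_proof (c_YN d)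
  (c_YA d) (c_YF d)

theorem c_YS (d : ℕ) : YS d := Pool.Agent.N7.RL.YS_of d (c_YN d) (c_YF d) (c_YP d)

theorem c_YX (d : ℕ) : YX d := Pool.Agent.N252.RL.YX_of d Pool.Agent.N427.RK.R3a_proof (c_YN d)
  (c_YA d) (c_YF d) (c_YP d) (c_YS d)

theorem c_YQ (d : ℕ) : YQ d := Pool.Agent.N707.RL.YQ_of d Pool.Agent.N427.RK.R3a_proof (c_YN d)
  (c_YA d) (c_YF d) (c_YP d) (c_YS d)

theorem c_XG (d : ℕ) : XG d := Pool.Agent.N262.RL.XG_of d Pool.Agent.N401.RK.R2_proof (c_YN d)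
  (c_YF d) (c_YX d) (c_YQ d)

theorem c_SG (d : ℕ) : SG d := Pool.Agent.N617.RL.SG_of d (a_S1 d) (c_YN d) (c_YF d)

theorem c_SM (d : ℕ) : SM d := Pool.Agent.N669.RL.SM_of d (c_YN d) (c_YF d) (c_XG d) (c_SG d)

end Pool.Agent.N290.RL
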