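import Mathlib
import Pool.Agent.N290.RL.Stm
import Pool.Agent.N290.RJ.Tr
import Pool.Agent.N290.RJ.Fin

/-!
# Area integral bounds with one arbitrary function: final forms
-/

set_option autoImplicit false

open Complex MeasureTheory Set Filter Topology
open scoped ENNReal

namespace Pool.Agent.N290.RL

open Pool.Agent.N290.RJ

variable {d : ℕ}

/-- slowly varying weights without an upper bound -/
def SV (a : E d → ℝ) : Prop := ContDiffOn ℝ 1 a (B d) ∧ (∀ z ∈ B d, 0 < a z) ∧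
  ∀ z ∈ B d, ∀ ξ, |fderiv ℝ a z ξ| ≤ 1 / 256 * (a z * len z ξ)

theorem aw_of_sv {a : E d → ℝ} (ha : SV a) : AW (fun z => a z / (1 + a z)) := by
  obtain ⟨h1, h2, h3⟩ := ha
  have hd : ∀ z ∈ B d, DifferentiableAt ℝ a z := fun z hz =>
    (h1.differentiableOn (by norm_num)).differentiableAt (B_open.mem_nhds hz)
  refine ⟨?_, fun z hz => ?_, fun z hz ξ => ?_⟩
  · refine h1.div (contDiffOn_const.add h1) fun z hz => ?_
    have := h2 z hz
    positivity
  · have := h2 z hz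
    refine ⟨by positivity, ?_⟩
    rw [div_le_one (by positivity)]
    linarith
  · have ha0 := h2 z hz
    have h4 : HasDerivAt (fun x : ℝ => x / (1 + x)) (1 / (1 + a z) ^ 2) (a z) := by
      have h5 := (hasDerivAt_id (a z)).div ((hasDerivAt_id (a z)).const_add 1)
        (by simp only [id]; positivity)
      refine h5.congr_deriv ?_
      simp
    have h5 := h4.comp_hasFDerivAt z (hd z hz).hasFDerivAt
    have h6 : HasFDerivAt (fun z => a z / (1 + a z)) ((1 / (1 + a z) ^ 2) • fderiv ℝ a z) z := h5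
    rw [h6.fderiv]
    simp only [smul_apply, smul_eq_mul]
    rw [abs_mul, abs_of_pos (by positivity)]
    have h7 := h3 z hz ξ
    have hL := len_nonneg z ξ
    calc 1 / (1 + a z) ^ 2 * |fderiv ℝ a z ξ| ≤ 1 / (1 + a z) ^ 2 * (1 / 256 * (a z * len z ξ)) :=
          mul_le_mul_of_nonneg_left h7 (by positivity)
      _ = 1 / 256 * (a z / (1 + a z) * len z ξ) * (1 / (1 + a z)) := by field_simp
      _ ≤ 1 / 256 * (a z / (1 + a z) * len z ξ) * 1 := by
          refine mul_le_mul_of_nonneg_left ?_ (by positivity)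
          rw [div_le_one (by positivity)]; linarith
      _ = _ := by ring

theorem AI2 (h : AI d) (hSP : SP d) (δ : ℝ) (hδ : 0 < δ) : ∃ C : ℝ, 0 < C ∧
    ∀ (f G : E d → ℂ) (a : E d → ℝ),
    DifferentiableOn ℂ f (B d) → DifferentiableOn ℂ G (B d) → (∀ z ∈ B d, ‖f z‖ ≤ 1) →
    (∀ z ∈ B d, ‖G z‖ ≤ 1) → (∀ z ∈ B d, δ ≤ ‖f z‖ + ‖G z‖) → SV a →
    (∀ z ∈ B d, ∀ ξ, ‖fderiv ℂ f z ξ‖ ≤ a z * len z ξ) →
    ∃ g h : E d → ℂ, DifferentiableOn ℂ g (B d) ∧ DifferentiableOn ℂ h (B d) ∧ ∀ z ∈ B d,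
      f z * g z + G z * h z = 1 ∧
      ENNReal.ofReal ‖g z‖ ≤ ENNReal.ofReal C *
        (1 + ∫⁻ w in B d, ENNReal.ofReal (a w ^ 2 * ker z w)) ∧
      ENNReal.ofReal ‖h z‖ ≤ ENNReal.ofReal C *
        (1 + ∫⁻ w in B d, ENNReal.ofReal (a w ^ 2 * ker z w)) := by
  obtain ⟨C, hC, H⟩ := h (δ / 2) (by positivity)
  refine ⟨C, hC, fun f G a hf hG hf1 hG1 hlow ha hfa => ?_⟩
  have hf2 : DifferentiableOn ℂ (fun z => f z / 2) (B d) := (hf.mul_const ((2 : ℂ)⁻¹)).congr fun z _ => div_eq_mul_inv _ _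
  obtain ⟨g, k, hg, hk, hgk⟩ := H (fun z => f z / 2) G (fun z => a z / (1 + a z)) hf2 hG
    (fun z hz => by
      rw [norm_div, Complex.norm_ofNat]
      linarith [hf1 z hz, norm_nonneg (f z)])
    hG1 (fun z hz => by
      rw [norm_div, Complex.norm_ofNat]
      have h1 := hlow z hz
      have h2 := norm_nonneg (G z)
      have h3 := norm_nonneg (f z)
      linarith) (aw_of_sv ha) (fun z hz ξ => by
      have hd := da_hol hf hz
      have h1 : fderiv ℂ (fun z => f z / 2) z = (2 : ℂ)⁻¹ • fderiv ℂ f z := by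
        have h2 := hd.hasFDerivAt.mul_const ((2 : ℂ)⁻¹)
        have h3 : (fun z => f z / 2) = fun z => f z * (2 : ℂ)⁻¹ := by
          funext z; rw [div_eq_mul_inv]
        rw [h3, h2.fderiv]
      rw [h1]
      simp only [smul_apply, smul_eq_mul]
      rw [norm_mul, norm_inv, Complex.norm_ofNat]
      have h2 := hfa z hz ξ
      have h3 := hSP f hf hf1 z hz ξ
      have ha0 := ha.2.1 z hz
      have hL := len_nonneg z ξ
      have h4 : ‖fderiv ℂ f z ξ‖ * (1 + a z) ≤ 2 * (a z * len z ξ) := by nlinarith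
      rw [div_mul_eq_mul_div, le_div_iff₀ (by positivity)]
      linarith)
  refine ⟨fun z => g z / 2, k, (hg.mul_const ((2 : ℂ)⁻¹)).congr fun z _ => div_eq_mul_inv _ _, hk,
    fun z hz => ?_⟩
  obtain ⟨h1, h2, h3⟩ := hgk z hz
  have hmono : ∫⁻ w in B d, ENNReal.ofReal ((a w / (1 + a w)) ^ 2 * ker z w) ≤
      ∫⁻ w in B d, ENNReal.ofReal (a w ^ 2 * ker z w) := by
    refine setLIntegral_mono' B_meas fun w hw => ENNReal.ofReal_le_ofReal ?_
    have ha0 := ha.2.1 w hw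
    refine mul_le_mul_of_nonneg_right ?_ (ker_nonneg z w)
    refine pow_le_pow_left₀ (by positivity) ?_ 2
    rw [div_le_iff₀ (by positivity)]
    nlinarith
  have hmono2 : ENNReal.ofReal C *
        (1 + ∫⁻ w in B d, ENNReal.ofReal ((a w / (1 + a w)) ^ 2 * ker z w)) ≤
      ENNReal.ofReal C * (1 + ∫⁻ w in B d, ENNReal.ofReal (a w ^ 2 * ker z w)) := by
    gcongr
  refine ⟨?_, ?_, h3.trans hmono2⟩
  · rw [← h1]; ring
  · refine (ENNReal.ofReal_le_ofReal ?_).trans (h2.trans hmono2)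
    rw [norm_div, Complex.norm_ofNat]
    linarith [norm_nonneg (g z)]

end Pool.Agent.N290.RL
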